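import Pool.Agent.H87.D3.Targets3

/-! d3h_modules HSJ: the Hessian at level `j`. -/

set_option autoImplicit false

namespace Pool.Agent.H61.D3

open MeasureTheory Metric Set Filter Topology Pool.Agent.H87.SN Pool.Agent.H87.SH Pool.Agent.H87.AX
open Pool.Agent.H87.D3
open scoped ContDiff RealInnerProductSpace ENNReal

noncomputable section

/-- averaging over small balls -/
lemma avg (F : V → ℝ≥0∞) (hF : Measurable F) (r : ℝ) :
    ∫⁻ x : V, ∫⁻ y in ball x r, F y = volume (ball (0 : V) r) * ∫⁻ y, F y := by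
  have hS : MeasurableSet {p : V × V | dist p.2 p.1 < r} :=
    measurableSet_lt (measurable_snd.dist measurable_fst) measurable_const
  have hk : Measurable ({p : V × V | dist p.2 p.1 < r}.indicator (fun p => F p.2)) :=
    (hF.comp measurable_snd).indicator hS
  have e1 : ∀ x : V, ∫⁻ y in ball x r, F y =
      ∫⁻ y, {p : V × V | dist p.2 p.1 < r}.indicator (fun p => F p.2) (x, y) := by
    intro x
    rw [← lintegral_indicator measurableSet_ball]
    apply lintegral_congr
    intro y
    by_cases h : dist y x < r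
    · rw [indicator_of_mem (mem_ball.2 h), indicator_of_mem (by exact h)]
    · rw [indicator_of_notMem (fun h2 => h (mem_ball.1 h2)), indicator_of_notMem (by exact h)]
  simp_rw [e1]
  have hsw := lintegral_lintegral_swap (μ := (volume : Measure V)) (ν := (volume : Measure V))
    (f := fun x y => {p : V × V | dist p.2 p.1 < r}.indicator (fun p => F p.2) (x, y))
    hk.aemeasurable
  rw [hsw]
  have e2 : ∀ y : V, ∫⁻ x, {p : V × V | dist p.2 p.1 < r}.indicator (fun p => F p.2) (x, y) =
      volume (ball (0 : V) r) * F y := by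
    intro y
    have e3 : (fun x : V => {p : V × V | dist p.2 p.1 < r}.indicator (fun p => F p.2) (x, y)) =
        (ball y r).indicator (fun _ => F y) := by
      funext x
      by_cases h : dist y x < r
      · rw [indicator_of_mem (by exact h), indicator_of_mem (mem_ball'.2 h)]
      · rw [indicator_of_notMem (by exact h), indicator_of_notMem (fun h2 => h (mem_ball'.1 h2))]
    rw [e3, lintegral_indicator measurableSet_ball, setLIntegral_const,
      Measure.addHaar_ball_center, mul_comm]
  simp_rw [e2]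
  rw [lintegral_const_mul _ hF]

section

variable {m : ℕ} {G : V → V →L[ℝ] E m}

lemma th_meas (h : ∀ r : ℝ, Continuous (fun x => (mu G).real (ball x r))) (r : ℝ) :
    Measurable (fun x => th G x r) := by
  unfold th
  exact (h r).measurable.div_const r

lemma Wc_meas (hfin : IsFiniteMeasure (mu G))
    (h : ∀ r : ℝ, Continuous (fun x => (mu G).real (ball x r))) (k K : ℕ) (s : ℝ) :
    Measurable (fun x => Wc G k K x s) := by
  unfold Wc
  apply Measurable.const_mul
  have hD : Measurable (fun p : V => ENNReal.ofReal (dr G k K p s)) := by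
    unfold dr
    exact ((th_meas h _).sub (th_meas h _)).ennreal_ofReal
  have hS : MeasurableSet {p : V × V | dist p.2 p.1 < s} :=
    measurableSet_lt (measurable_snd.dist measurable_fst) measurable_const
  have hk : Measurable ({p : V × V | dist p.2 p.1 < s}.indicator
      (fun p => ENNReal.ofReal (dr G k K p.2 s))) :=
    (hD.comp measurable_snd).indicator hS
  have e1 : (fun x : V => ∫⁻ p in ball x s, ENNReal.ofReal (dr G k K p s) ∂(mu G)) =
      fun x => ∫⁻ p, {q : V × V | dist q.2 q.1 < s}.indicator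
        (fun q => ENNReal.ofReal (dr G k K q.2 s)) (x, p) ∂(mu G) := by
    funext x
    rw [← lintegral_indicator measurableSet_ball]
    apply lintegral_congr
    intro y
    by_cases h : dist y x < s
    · rw [indicator_of_mem (mem_ball.2 h), indicator_of_mem (by exact h)]
    · rw [indicator_of_notMem (fun h2 => h (mem_ball.1 h2)), indicator_of_notMem (by exact h)]
  rw [e1]
  exact hk.lintegral_prod_right'

end

lemma hsq_cont {m : ℕ} {U : Set V} {u : V → E m} (hU : IsOpen U) (hu : ContDiffOn ℝ ∞ u U) :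
    ContinuousOn (fun x => ENNReal.ofReal (Real.sqrt (hsq u x))) U := by
  have h1 : ContDiffOn ℝ ∞ (fderiv ℝ u) U := hu.fderiv_of_isOpen hU (by simp)
  have h2 : ContDiffOn ℝ ∞ (fderiv ℝ (fderiv ℝ u)) U := h1.fderiv_of_isOpen hU (by simp)
  have h3 : ContinuousOn (fderiv ℝ (fderiv ℝ u)) U := h2.continuousOn
  have h4 : ContinuousOn (fun x => hsq u x) U := by
    unfold hsq
    apply continuousOn_finsetSum
    intro i _
    apply continuousOn_finsetSum
    intro j _
    exact (((h3.clm_apply continuousOn_const).clm_apply continuousOn_const).norm).pow 2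
  exact ENNReal.continuous_ofReal.comp_continuousOn (Real.continuous_sqrt.comp_continuousOn h4)

theorem pf_HSJ (hMUF : T_MUF) (hHLC : T_HLC) (hTON : T_TON) : T_HSJ := by
  intro m L Λ ε e C ν q K hL hΛ he hC hq hν hEP
  obtain ⟨C1, hC1, hH⟩ := hHLC m L Λ ε e hL hEP
  obtain ⟨C2, hC2, hT⟩ := hTON Λ e (e / 4) he (by positivity)
  set vv : ℝ := (volume (ball (0 : V) 1)).toReal with hvv
  have hvvt : volume (ball (0 : V) 1) ≠ ⊤ := measure_ball_lt_top.ne
  have hvv0 : 0 < vv := ENNReal.toReal_pos (measure_ball_pos volume 0 one_pos).ne' hvvt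
  refine ⟨vv⁻¹ * C1 * 2 ^ 21 * (Real.sqrt Λ + 16 / 3 * (C * C2 * (1 / 2) ^ q)), by positivity, ?_⟩
  intro U u G hSM hRec j hj
  obtain ⟨hfin, -, -, -, -, hcont⟩ := hMUF m G hSM.gd.memG
  have hFM : IsFiniteMeasure (mu G) := ⟨lt_top_iff_ne_top.2 hfin⟩
  -- scales
  obtain ⟨i, rfl⟩ : ∃ i, j = i + 1 := ⟨j - 1, by omega⟩
  have hi : 4 * q + 4 ≤ i := by omega
  set s : ℝ := sj i with hs
  have hs0 : 0 < s := by rw [hs]; unfold sj; positivity
  have es1 : sj (i + 1) = s / 2 := by rw [hs]; unfold sj; rw [pow_succ]; ring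
  have es2 : sj (i + 1 + 1) = s / 4 := by rw [hs]; unfold sj; rw [pow_succ, pow_succ]; ring
  have hqs : 2 ^ (4 * q) * s ≤ 1 / 16 := by
    obtain ⟨d, hd⟩ : ∃ d, i = 4 * q + 4 + d := ⟨i - (4 * q + 4), by omega⟩
    have e : 2 ^ (4 * q) * s = (1 / 2 : ℝ) ^ 4 * (1 / 2) ^ d := by
      rw [hs]; unfold sj
      rw [hd, pow_add, pow_add, one_div, inv_pow, inv_pow, inv_pow]
      field_simp
    rw [e]
    have h1 : (1 / 2 : ℝ) ^ d ≤ 1 := pow_le_one₀ (by norm_num) (by norm_num)
    nlinarith
  have hs16 : s ≤ 1 / 16 := by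
    have h1 : (1 : ℝ) ≤ 2 ^ (4 * q) := one_le_pow₀ (by norm_num)
    nlinarith
  have hs256 : s ≤ 1 / 256 := by
    have h1 : (2 : ℝ) ^ (4 * 1) ≤ 2 ^ (4 * q) := pow_le_pow_right₀ (by norm_num) (by omega)
    norm_num at h1
    nlinarith
  rw [es1, es2]
  simp only [Nat.add_sub_cancel]
  set A : Set V := {x : V | x ∈ ball 0 1 ∧ e ≤ th G x (s / 2) ∧ th G x (s / 4) < e} with hA
  set X : Set V := {x : V | x ∈ ball 0 (5 / 4) ∧ e / 2 ≤ th G x s ∧ th G x (s / 8) < 2 * e} with hX
  set P : Set V := {x : V | Wc G (4 * q) K x s < ENNReal.ofReal ν} with hP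
  set f : V → ℝ≥0∞ := fun x => ENNReal.ofReal (Real.sqrt (hsq u x)) with hf
  set g : V → ℝ≥0∞ := fun x => ENNReal.ofReal (Real.sqrt (th G x (s / 128))) with hg
  have hAm : MeasurableSet A := measurableSet_ball.inter
    ((measurableSet_le measurable_const (th_meas hcont _)).inter
      (measurableSet_lt (th_meas hcont _) measurable_const))
  have hXm : MeasurableSet X := measurableSet_ball.inter
    ((measurableSet_le measurable_const (th_meas hcont _)).inter
      (measurableSet_lt (th_meas hcont _) measurable_const))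
  have hPm : MeasurableSet P := measurableSet_lt (Wc_meas hFM hcont _ _ _) measurable_const
  -- `A` is in `U`
  have hAU : A ⊆ U := by
    intro y hy
    have hyb : ball y (s / 4) ⊆ ball 0 2 := by
      intro z hz
      rw [mem_ball] at hz ⊢
      have h1 := mem_ball.1 hy.1
      have h2 := dist_triangle z y 0
      linarith
    exact (hEP U u G hSM y (s / 4) (by positivity) hyb (by linarith [hy.2.2]) y
      (mem_ball_self (by positivity))).1
  -- measurability
  have hFm : Measurable (A.indicator f) := by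
    have h1 : Measurable (U.indicator f) := by
      classical
      have h2 := (hsq_cont hSM.opn hSM.smooth).measurable_piecewise
        (g := (0 : V → ℝ≥0∞)) continuousOn_const hSM.opn.measurableSet
      rwa [piecewise_eq_indicator] at h2
    have h3 : A.indicator f = A.indicator (U.indicator f) := by
      rw [indicator_indicator, inter_eq_left.2 hAU]
    rw [h3]
    exact h1.indicator hAm
  have hav := avg (A.indicator f) hFm (s / 256)
  rw [lintegral_indicator hAm] at hav
  -- the inner integral
  have hin : ∀ x : V, ∫⁻ y in ball x (s / 256), A.indicator f y ≤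
      X.indicator (fun x => ENNReal.ofReal (C1 * (s / 8)) * g x) x := by
    intro x
    by_cases hx : (ball x (s / 256) ∩ A).Nonempty
    · obtain ⟨y, hyb, hyA⟩ := hx
      have hxy : dist y x < s / 256 := mem_ball.1 hyb
      have hy0 : dist y 0 < 1 := mem_ball.1 hyA.1
      have hx0 : dist x 0 < 5 / 4 := by
        have h1 := dist_triangle x y 0
        rw [dist_comm x y] at h1
        linarith
      have m1 : ball y (s / 2) ⊆ ball x s := by
        intro z hz
        rw [mem_ball] at hz ⊢
        have h1 := dist_triangle z y x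
        linarith
      have m2 : ball x (s / 8) ⊆ ball y (s / 4) := by
        intro z hz
        rw [mem_ball] at hz ⊢
        have h1 := dist_triangle z x y
        rw [dist_comm x y] at h1
        linarith
      have t1 : e / 2 ≤ th G x s := by
        have h1 := hyA.2.1
        unfold th at h1 ⊢
        rw [le_div_iff₀ (by positivity)] at h1 ⊢
        have h2 : (mu G).real (ball y (s / 2)) ≤ (mu G).real (ball x s) := measureReal_mono m1
        linarith
      have t2 : th G x (s / 8) < 2 * e := by
        have h1 := hyA.2.2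
        unfold th at h1 ⊢
        rw [div_lt_iff₀ (by positivity)] at h1 ⊢
        have h2 : (mu G).real (ball x (s / 8)) ≤ (mu G).real (ball y (s / 4)) :=
          measureReal_mono m2
        linarith
      have hxX : x ∈ X := ⟨mem_ball.2 hx0, t1, t2⟩
      rw [indicator_of_mem hxX]
      have hb : ball x (s / 8) ⊆ ball 0 2 := by
        intro z hz
        rw [mem_ball] at hz ⊢
        have h2 := dist_triangle z x 0
        linarith
      have h3 := (hH U u G hSM x (s / 8) (by positivity) hb t2).2
      have e1 : s / 8 / 32 = s / 256 := by ring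
      have e2 : s / 8 / 16 = s / 128 := by ring
      rw [e1, e2] at h3
      calc ∫⁻ y in ball x (s / 256), A.indicator f y
          ≤ ∫⁻ y in ball x (s / 256), f y := lintegral_mono (indicator_le_self A f)
        _ = hInt u (ball x (s / 256)) := rfl
        _ ≤ _ := h3
        _ = _ := by rw [ENNReal.ofReal_mul (by positivity)]
    · have h0 : ∫⁻ y in ball x (s / 256), A.indicator f y = 0 := by
        rw [← lintegral_indicator measurableSet_ball]
        have : (ball x (s / 256)).indicator (A.indicator f) = fun _ => 0 := by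
          rw [indicator_indicator, not_nonempty_iff_eq_empty.1 hx, indicator_empty]
        rw [this, lintegral_zero]
      rw [h0]
      exact zero_le
  have h5 : volume (ball (0 : V) (s / 256)) * hInt u A ≤
      ENNReal.ofReal (C1 * (s / 8)) * ∫⁻ x in X, g x := by
    calc volume (ball (0 : V) (s / 256)) * hInt u A
        = ∫⁻ x : V, ∫⁻ y in ball x (s / 256), A.indicator f y := hav.symm
      _ ≤ ∫⁻ x, X.indicator (fun x => ENNReal.ofReal (C1 * (s / 8)) * g x) x :=
          lintegral_mono hin
      _ = _ := by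
          rw [lintegral_indicator hXm, lintegral_const_mul' _ _ ENNReal.ofReal_ne_top]
  have hvol : volume (ball (0 : V) (s / 256)) = ENNReal.ofReal (vv * (s / 256) ^ 3) := by
    rw [Measure.addHaar_ball volume (0 : V) (by positivity : (0 : ℝ) ≤ s / 256)]
    have hfr : Module.finrank ℝ V = 3 := by simp
    rw [hfr, mul_comm vv, ENNReal.ofReal_mul (by positivity), hvv, ENNReal.ofReal_toReal hvvt]
  -- the integral over `X`
  have hX1 : ∫⁻ x in X ∩ Pᶜ, g x ≤ ENNReal.ofReal (Real.sqrt Λ) *
      volume {x : V | x ∈ ball 0 (3 / 2) ∧ ENNReal.ofReal ν ≤ Wc G (4 * q) K x s} := by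
    calc ∫⁻ x in X ∩ Pᶜ, g x ≤ ∫⁻ _ in X ∩ Pᶜ, ENNReal.ofReal (Real.sqrt Λ) := by
          apply setLIntegral_mono measurable_const
          intro x hx
          apply ENNReal.ofReal_le_ofReal
          apply Real.sqrt_le_sqrt
          have hb : ball x (s / 128) ⊆ ball 0 2 := by
            intro z hz
            rw [mem_ball] at hz ⊢
            have h1 := mem_ball.1 hx.1.1
            have h2 := dist_triangle z x 0
            linarith
          have h1 := hSM.gd.den x (s / 128) (by positivity) hb
          unfold th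
          rw [div_le_iff₀ (by positivity)]
          exact h1
      _ = ENNReal.ofReal (Real.sqrt Λ) * volume (X ∩ Pᶜ) := setLIntegral_const _ _
      _ ≤ _ := by
          apply mul_le_mul_right
          apply measure_mono
          intro x hx
          refine ⟨?_, not_lt.1 hx.2⟩
          rw [mem_ball]
          have h1 := mem_ball.1 hx.1.1
          linarith
  have hwm : Measurable ((ball (0 : V) (5 / 4)).indicator (fun _ => ENNReal.ofReal (3 / 16))) :=
    measurable_const.indicator measurableSet_ball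
  have hT1 := hT m G hSM.gd C q i _ 0 hC hq hi hwm le_rfl (by
    intro x y _ hxy
    by_cases hx : x ∈ ball (0 : V) (5 / 4)
    · rw [indicator_of_mem hx]
      refine le_trans ?_ (le_add_right le_rfl)
      apply ENNReal.ofReal_le_ofReal
      have h1 := mem_ball_zero_iff.1 hx
      have h2 : ‖y‖ ≤ ‖x‖ + dist x y := by
        have h3 := dist_triangle y x 0
        rw [dist_zero_right, dist_zero_right, dist_comm y x] at h3
        linarith
      have h4 : dist x y < 1 / 16 := hxy.trans_le hqs
      linarith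
    · rw [indicator_of_notMem hx]
      exact zero_le)
  rw [← hs, ENNReal.ofReal_zero, add_zero] at hT1
  have hX2 : ∫⁻ x in X ∩ P, g x ≤ ENNReal.ofReal (16 / 3) *
      ∫⁻ x in {x : V | x ∈ ball 0 (3 / 2) ∧ e / 4 ≤ th G x s},
        (ball (0 : V) (5 / 4)).indicator (fun _ => ENNReal.ofReal (3 / 16)) x * Rg G e C q x s := by
    rw [← lintegral_const_mul' _ _ ENNReal.ofReal_ne_top]
    calc ∫⁻ x in X ∩ P, g x ≤ ∫⁻ x in X ∩ P, ENNReal.ofReal (16 / 3) *
          ((ball (0 : V) (5 / 4)).indicator (fun _ => ENNReal.ofReal (3 / 16)) x *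
            Rg G e C q x s) := by
          apply setLIntegral_mono' (hXm.inter hPm)
          intro x hx
          have hb : ball x ((2 * 2 ^ (4 * q) + 2) * s) ⊆ ball 0 2 := by
            intro z hz
            rw [mem_ball] at hz ⊢
            have h1 := mem_ball.1 hx.1.1
            have h2 := dist_triangle z x 0
            nlinarith
          have h1 := (hRec x s hs0 hb (by linarith [hx.1.2.1]) hx.2).2 hx.1.2.2
          rw [indicator_of_mem hx.1.1, ← mul_assoc, ← ENNReal.ofReal_mul (by norm_num)]
          norm_num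
          exact h1
      _ ≤ _ := by
          apply lintegral_mono_set
          intro x hx
          refine ⟨?_, by linarith [hx.1.2.1]⟩
          rw [mem_ball]
          have h1 := mem_ball.1 hx.1.1
          linarith
  have hXs : ∫⁻ x in X, g x ≤ (∫⁻ x in X ∩ P, g x) + ∫⁻ x in X ∩ Pᶜ, g x := by
    have h1 : X = (X ∩ P) ∪ (X ∩ Pᶜ) := (inter_union_compl X P).symm
    conv_lhs => rw [h1]
    exact lintegral_union_le _ _ _
  set T : ℝ≥0∞ := bad G (4 * q) K ν i + Hj G e (i + 20 * q - 1) + Hj G e (i + 3 - 4 * q) with hTT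
  have h6 : ENNReal.ofReal ((s ^ 2)⁻¹) * ∫⁻ x in X, g x ≤
      ENNReal.ofReal (Real.sqrt Λ + 16 / 3 * (C * C2 * (1 / 2) ^ q)) * T := by
    have k1 : ENNReal.ofReal ((s ^ 2)⁻¹) * ∫⁻ x in X ∩ Pᶜ, g x ≤
        ENNReal.ofReal (Real.sqrt Λ) * T := by
      calc ENNReal.ofReal ((s ^ 2)⁻¹) * ∫⁻ x in X ∩ Pᶜ, g x
          ≤ ENNReal.ofReal ((s ^ 2)⁻¹) * (ENNReal.ofReal (Real.sqrt Λ) *
            volume {x : V | x ∈ ball 0 (3 / 2) ∧ ENNReal.ofReal ν ≤ Wc G (4 * q) K x s}) :=
            mul_le_mul_right hX1 _
        _ = ENNReal.ofReal (Real.sqrt Λ) * bad G (4 * q) K ν i := by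
            unfold bad
            rw [← hs]
            ring
        _ ≤ _ := by
            apply mul_le_mul_right
            rw [hTT, add_assoc]
            exact le_add_right le_rfl
    have k2 : ENNReal.ofReal ((s ^ 2)⁻¹) * ∫⁻ x in X ∩ P, g x ≤
        ENNReal.ofReal (16 / 3 * (C * C2 * (1 / 2) ^ q)) * T := by
      calc ENNReal.ofReal ((s ^ 2)⁻¹) * ∫⁻ x in X ∩ P, g x
          ≤ ENNReal.ofReal ((s ^ 2)⁻¹) * (ENNReal.ofReal (16 / 3) *
            ∫⁻ x in {x : V | x ∈ ball 0 (3 / 2) ∧ e / 4 ≤ th G x s},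
              (ball (0 : V) (5 / 4)).indicator (fun _ => ENNReal.ofReal (3 / 16)) x *
                Rg G e C q x s) := mul_le_mul_right hX2 _
        _ = ENNReal.ofReal (16 / 3) * (ENNReal.ofReal ((s ^ 2)⁻¹) *
            ∫⁻ x in {x : V | x ∈ ball 0 (3 / 2) ∧ e / 4 ≤ th G x s},
              (ball (0 : V) (5 / 4)).indicator (fun _ => ENNReal.ofReal (3 / 16)) x *
                Rg G e C q x s) := mul_left_comm _ _ _
        _ ≤ ENNReal.ofReal (16 / 3) * (ENNReal.ofReal (C * C2 * (1 / 2) ^ q) *
            (Hj G e (i + 20 * q - 1) + Hj G e (i + 3 - 4 * q))) := mul_le_mul_right hT1 _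
        _ = ENNReal.ofReal (16 / 3 * (C * C2 * (1 / 2) ^ q)) *
            (Hj G e (i + 20 * q - 1) + Hj G e (i + 3 - 4 * q)) := by
            rw [ENNReal.ofReal_mul (by norm_num : (0 : ℝ) ≤ 16 / 3), ← mul_assoc]
        _ ≤ _ := by
            apply mul_le_mul_right
            rw [hTT, add_assoc]
            exact le_add_left le_rfl
    rw [ENNReal.ofReal_add (Real.sqrt_nonneg _) (by positivity), add_mul]
    calc ENNReal.ofReal ((s ^ 2)⁻¹) * ∫⁻ x in X, g x
        ≤ ENNReal.ofReal ((s ^ 2)⁻¹) * ((∫⁻ x in X ∩ P, g x) + ∫⁻ x in X ∩ Pᶜ, g x) :=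
          mul_le_mul_right hXs _
      _ = (ENNReal.ofReal ((s ^ 2)⁻¹) * ∫⁻ x in X ∩ Pᶜ, g x) +
          ENNReal.ofReal ((s ^ 2)⁻¹) * ∫⁻ x in X ∩ P, g x := by rw [mul_add, add_comm]
      _ ≤ _ := add_le_add k1 k2
  have hv0 : 0 < vv * (s / 256) ^ 3 := by positivity
  rw [hvol] at h5
  have h7 : hInt u A ≤ ENNReal.ofReal (vv⁻¹ * C1 * 2 ^ 21) *
      (ENNReal.ofReal ((s ^ 2)⁻¹) * ∫⁻ x in X, g x) := by
    have hne : ENNReal.ofReal (vv * (s / 256) ^ 3) ≠ 0 := by
      rw [Ne, ENNReal.ofReal_eq_zero, not_le]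
      exact hv0
    have h8 : hInt u A ≤ (ENNReal.ofReal (vv * (s / 256) ^ 3))⁻¹ *
        (ENNReal.ofReal (C1 * (s / 8)) * ∫⁻ x in X, g x) := by
      rw [← ENNReal.div_eq_inv_mul, ENNReal.le_div_iff_mul_le (Or.inl hne)
        (Or.inl ENNReal.ofReal_ne_top), mul_comm]
      exact h5
    refine h8.trans (le_of_eq ?_)
    rw [← ENNReal.ofReal_inv_of_pos hv0, ← mul_assoc, ← mul_assoc,
      ← ENNReal.ofReal_mul (by positivity), ← ENNReal.ofReal_mul (by positivity)]
    congr 2
    field_simp
    ring
  calc hInt u A ≤ _ := h7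
    _ ≤ ENNReal.ofReal (vv⁻¹ * C1 * 2 ^ 21) *
        (ENNReal.ofReal (Real.sqrt Λ + 16 / 3 * (C * C2 * (1 / 2) ^ q)) * T) :=
        mul_le_mul_right h6 _
    _ = _ := by rw [← mul_assoc, ← ENNReal.ofReal_mul (by positivity)]

end

end Pool.Agent.H61.D3
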